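import Pool.Agent.Y198.DC.Fin

/-!
# No local hypersurface domain of dimension `c - 1` satisfies `(C_c)`, and in every dimension
`d ≥ 2` one hypersurface domain fails all the conditions `(C_2), …, (C_(d+1))`

`depth`, `codim`, `IsCMOfCodim`, `IsLocalHypersurfaceDomain` and `ConditionC` are defined in
`Pool.Agent.H503R3.CC.Defs`.
-/

set_option autoImplicit false

namespace Pool.Agent.Results.MP_86e60f_al.EveryDimension

open CategoryTheory IsLocalRing TensorProduct H503R3.CC

universe u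

/-- (1) EVERY local hypersurface domain of dimension `d` fails `(C_(d+1))`, and satisfies `(C_c)`
for all `c ≥ d + 2` (vacuously).

(2) For every field `K` and every `d ≥ 2` there is a local hypersurface domain `R`, a `K`-algebra
of dimension `d`, for which, among the conditions `(C_c)` with `c ≥ 2`, exactly those with
`c ≤ d + 1` fail; they fail for the cyclic modules `R / 𝔭_(c-1)`, where
`𝔭_1 < … < 𝔭_d` is a chain of primes ending in the maximal ideal and `R` is regular at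
`𝔭_1, …, 𝔭_(d-1)`. -/
theorem result :
    (∀ (R : Type u) [CommRing R] [IsLocalRing R], IsLocalHypersurfaceDomain R →
      ∀ d : ℕ, ringKrullDim R = (d : WithBot ℕ∞) →
        ¬ ConditionC (d + 1) R ∧ ∀ c, d + 2 ≤ c → ConditionC c R) ∧
    ∀ (K : Type u) [Field K] (d : ℕ), 2 ≤ d →
    ∃ (R : Type u) (_ : CommRing R) (_ : IsLocalRing R) (_ : Algebra K R),
      IsLocalHypersurfaceDomain R ∧ ringKrullDim R = d ∧
      (∀ c, 2 ≤ c → (ConditionC c R ↔ d + 2 ≤ c)) ∧
      ∃ 𝔭 : ℕ → Ideal R, 𝔭 d = maximalIdeal R ∧ (∀ t, 1 ≤ t → t < d → 𝔭 t < 𝔭 (t + 1)) ∧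
        ∀ t, 1 ≤ t → t ≤ d → (𝔭 t).IsPrime ∧
          IsCMOfCodim R (R ⧸ 𝔭 t) t ∧
          IsCMOfCodim R ((R ⧸ 𝔭 t) ⊗[R]
            Abelian.Ext (ModuleCat.of R (R ⧸ 𝔭 t)) (ModuleCat.of R R) t) t ∧
          projectiveDimension (ModuleCat.of R (R ⧸ 𝔭 t)) = ⊤ ∧
          (t < d → ∀ [(𝔭 t).IsPrime], IsRegularLocalRing (Localization.AtPrime (𝔭 t))) :=
  ⟨fun R _ _ hR d hd => Pool.Agent.Y198.DC.every R hR d hd,
    fun K _ d hd => Pool.Agent.Y198.DC.one K d hd⟩

end Pool.Agent.Results.MP_86e60f_al.EveryDimension
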